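import Pool.Agent.Q171.RC.Strong

/-!
# Exceptional sets in algebraic families, for points given by iterated recurrences

We consider families of points `x(h)`, `h ∈ H`, of projective varieties, where `H` is an arbitrary
group and the homogeneous coordinates are given by `s` iterated recurrences with matrices of size `r`
and polynomials of degree at most `e` (`IterVec s r e x`): there are functions `X_1, ..., X_s` on `H`
with values in the invertible matrices of size `r` such that for every `g` the entries of
`X_l(g h) X_l(h)⁻¹` are values of polynomials of degree at most `e` in each variable, with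
coefficients which depend only on `g`, at the entries of `X_i(h)`, `X_i(h)⁻¹`, `i < l`, and the
coordinates of `x(h)` are values of such polynomials at the entries of all these matrices.

For all `n`, `D`, `s`, `r`, `e` there are numbers `δ` and `B` with the following property. Let `k` be a
field with an embedding in `ℂ` (for instance a number field) and let `X_t`, for `t = (t_1, ..., t_m)`,
be any algebraic family of projective varieties over `k`: `X_t` is given by forms in `n + 1` variables
of degree at most `D` with coefficients in `k[t_1, ..., t_m]`. Then there are finitely many forms `G`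
with coefficients in `k[t_1, ..., t_m]` such that, for ALL `t` with coordinates in `ℂ`:

(1) the closed set `Z_t` given by the forms `G_t` is the union of all rational curves of degree at
most `δ` on `X_t`; so `Z_t ≠ X_t` if and only if `X_t` is not covered by rational curves of degree at
most `δ`, for instance if `X_t` is of general type;

(2) for all groups `H` and all families of points of `X_t` given by iterated recurrences of
complexity `(s, r, e)`, at most `B` of the points of the family are not on `Z_t`.

For a number field `k` and `t` with coordinates in an extension `L` of `k` in `ℂ` this applies to the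
families of points of `X_t(L)`, and `Z_t` is defined over `L`.
-/

set_option autoImplicit false

namespace Pool.Agent.Results.MP_7ede32_ag.ExceptionalLociInFamilies

open MvPolynomial Pool.Agent.Y377.ST Pool.Agent.Q171.RC

/-- the equations of the member `X_t` of the family, for `t` with coordinates in `ℂ` -/
def member {N m : ℕ} {k : Type} [Field k] [Algebra k ℂ]
    (S : Set (MvPolynomial (Fin N) (MvPolynomial (Fin m) k))) (t : Fin m → ℂ) :
    Set (MvPolynomial (Fin N) ℂ) := map (aeval t : MvPolynomial (Fin m) k →ₐ[k] ℂ).toRingHom '' S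

/-- The point with the homogeneous coordinates `x` lies on a rational curve of degree at most `δ` on
the projective variety of `S`: there is a vector `p` of polynomials of degree at most `δ` with values
on the variety which are not all the same point and with `p(0) = x`. -/
def OnRationalCurve {N : ℕ} (δ : ℕ) (S : Set (MvPolynomial (Fin N) ℂ)) (x : Fin N → ℂ) : Prop :=
  ∃ p : Fin N → Polynomial ℂ, (∀ j, (p j).natDegree ≤ δ) ∧ (∀ F ∈ S, aeval p F = 0) ∧
    (∃ s t i j, (p i).eval s * (p j).eval t ≠ (p j).eval s * (p i).eval t) ∧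
    ∀ j, (p j).eval 0 = x j

theorem result (n D s r e : ℕ) : ∃ δ B : ℕ,
    ∀ (k : Type) [Field k] [Algebra k ℂ] (m : ℕ)
      (S : Set (MvPolynomial (Fin (n + 1)) (MvPolynomial (Fin m) k))),
      (∀ F ∈ S, ∃ e, e ≤ D ∧ F.IsHomogeneous e) →
      ∃ Z : Set (MvPolynomial (Fin (n + 1)) (MvPolynomial (Fin m) k)), Z.Finite ∧
        (∀ G ∈ Z, ∃ d, G.IsHomogeneous d) ∧ ∀ t : Fin m → ℂ,
          (∀ x : Fin (n + 1) → ℂ, x ≠ 0 →
            ((∀ G ∈ member Z t, eval x G = 0) ↔ OnRationalCurve δ (member S t) x)) ∧
          ∀ (H : Type) [Group H] (x : H → Fin (n + 1) → ℂ), IterVec s r e x →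
            (∀ h, ∀ F ∈ member S t, eval (x h) F = 0) →
            {P | ∃ (h : H) (h0 : x h ≠ 0), (∃ G ∈ member Z t, eval (x h) G ≠ 0) ∧
              P = Projectivization.mk ℂ (x h) h0}.encard ≤ (B : ℕ∞) := by
  classical
  obtain ⟨δ, B, hB⟩ := rec_locus n D s r e
  refine ⟨δ, B, fun k _ _ m S hS => ?_⟩
  obtain ⟨Gs, hGs, hloc⟩ := locus ℂ S (fun F hF => by
    obtain ⟨e, -, he⟩ := hS F hF
    exact ⟨e, he⟩) δ
  have hpt : ∀ (t : Fin m → ℂ) (y : Fin (n + 1) → ℂ),
      HasPt (ev t : MvPolynomial (Fin m) k →+* ℂ) S δ y ↔ OnRationalCurve δ (member S t) y := by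
    intro t y
    constructor
    · rintro ⟨p, h1, h2, h3, h4⟩
      refine ⟨p, h2, ?_, h1, h4⟩
      rintro _ ⟨F, hF, rfl⟩
      exact h3 F hF
    · rintro ⟨p, h1, h2, h3, h4⟩
      exact ⟨p, h3, h1, fun F hF => h2 _ ⟨F, hF, rfl⟩, h4⟩
  have hiff : ∀ (t : Fin m → ℂ) (x : Fin (n + 1) → ℂ), x ≠ 0 →
      ((∀ G ∈ member (Gs : Set (MvPolynomial (Fin (n + 1)) (MvPolynomial (Fin m) k))) t,
        eval x G = 0) ↔ OnRationalCurve δ (member S t) x) := by
    intro t x hx
    rw [← hpt, ← hloc t x hx]
    constructor
    · intro h G hG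
      exact h _ ⟨G, hG, rfl⟩
    · rintro h _ ⟨G, hG, rfl⟩
      exact h G hG
  refine ⟨Gs, Gs.finite_toSet, fun G hG => hGs G hG, fun t => ⟨hiff t, ?_⟩⟩
  intro H _ x hx hxS
  refine le_trans (Set.encard_le_encard ?_) (hB (member S t) (by
    rintro _ ⟨F, hF, rfl⟩
    obtain ⟨e, he, he'⟩ := hS F hF
    exact ⟨e, he, he'.map _⟩) H x hx hxS)
  rintro P ⟨h, h0, ⟨G, hG, hne⟩, rfl⟩
  refine ⟨h, h0, ?_, rfl⟩
  rintro ⟨p, h1, h2, h3, h4⟩
  exact hne ((hiff t (x h) h0).2 ⟨p, h2, h3, h1, h4⟩ G hG)

end Pool.Agent.Results.MP_7ede32_ag.ExceptionalLociInFamilies
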