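import Mathlib
import Pool.Agent.Q58.SM.Conv
import Pool.Agent.Y215.SK.FinC

set_option autoImplicit false

/-!
# Points over the algebraic numbers close to sums of elements of a group of finite rank

Let `X` be an integral closed subvariety of projective `n`-space over a number field `k`, cut out by
forms of degree at most `d`.

(1) Suppose that `X` is not uniruled (for instance a variety of general type of positive dimension).
For every `r` there is a proper closed subset `Z = X ∩ {G = 0}` of `X`, defined over `k` and
depending only on `X` and `r`, such that for every embedding of `k` in `Qbar` and every finitely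
generated group `Γ` of nonzero algebraic numbers there are `A` and `e` with the following property:
for all vectors `V_1, …, V_r` over `Qbar`, only finitely many points of `(X ∖ Z)(Qbar)` are of the
form `∑ u_j s_j V_j`, where the `u_j` have a power in `Γ` and the `s_j` are algebraic numbers such
that `h(s_1 : … : s_r) < ε(d, r)`, and their number is at most `A (1 + h(V)) ^ e`.
The number `ε(d, r) > 0` is explicit and depends only on `d` and `r`.

So `Z` serves for all groups `Γ`, and the points are taken over all number fields together: neither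
the field generated by the `s_j` and `u_j` nor that of the `V_j` is fixed.

(2) If `X` is uniruled, this fails for some `r`, for all groups `Γ` and for every `ε > 0` in place
of `ε(d, r)`.
-/

namespace Pool.Agent.Results.MP_7ede32_ag.NearFiniteRank

open MvPolynomial hiding psum
open Pool.Agent.Helper259.AbsHt Pool.Agent.H533R3.SL Pool.Agent.Y215.SP
  Pool.Agent.Y215.SK

/-- the bound for the height of the vector `s` -/
noncomputable def radius (d r : ℕ) : ℝ := epsn ((d + 1) ^ r) / d / 2

theorem result (k : Type) [Field k] [NumberField k] (n N : ℕ)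
    (P : Fin N → MvPolynomial (Fin (n + 1)) k) (d : ℕ) (hd : 1 ≤ d)
    (hP : ∀ i, ∃ e, e ≤ d ∧ (P i).IsHomogeneous e)
    (hprime : (Ideal.span (Set.range P)).IsPrime) :
    (¬ Uniruled (Ideal.span (Set.range P)) → ∀ r : ℕ, 0 < radius d r ∧
      ∃ G : MvPolynomial (Fin (n + 1)) k, (∃ e, G.IsHomogeneous e) ∧
        G ∉ Ideal.span (Set.range P) ∧
        ∀ [Algebra k Qbar] (Γ : Subgroup Qbarˣ), Γ.FG → ∃ (A : ℝ) (e : ℕ),
          ∀ V : Fin r → Fin (n + 1) → Qbar, (mixPts P G Γ (radius d r) V).Finite ∧
            ((mixPts P G Γ (radius d r) V).ncard : ℝ) ≤ A * (1 + hV V) ^ e) ∧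
    (Uniruled (Ideal.span (Set.range P)) →
      ∃ r : ℕ, ∀ G : MvPolynomial (Fin (n + 1)) k, (∃ e, G.IsHomogeneous e) →
        G ∉ Ideal.span (Set.range P) →
        ∃ (_ : Algebra k Qbar) (V : Fin r → Fin (n + 1) → Qbar),
          ∀ (Γ : Subgroup Qbarˣ) (ε : ℝ), 0 < ε → (mixPts P G Γ ε V).Infinite) := by
  refine ⟨fun hnu r => ⟨?_, ?_⟩, fun hu => ?_⟩
  · unfold radius
    have hd' : (0 : ℝ) < d := by exact_mod_cast hd
    exact div_pos (div_pos (epsn_pos _ (Nat.one_le_pow _ _ (Nat.succ_pos d))) hd') two_pos
  · obtain ⟨G, h1, h2, h3⟩ := exists_hyper (Set.range P) hprime hnu d hd (by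
      rintro _ ⟨i, rfl⟩
      exact hP i) r
    refine ⟨G, h1, h2, fun {_} Γ hΓ => ?_⟩
    exact mix_finite P d hd hP G h1 (fun L _ _ c l hz hc => by
      refine h3 L c l ?_ hc
      rintro _ ⟨i, rfl⟩
      exact hz i) Γ hΓ
  · obtain ⟨r, hr⟩ := Pool.Agent.Q58.SM.converse k P hu
    refine ⟨r, fun G hG hGI => ?_⟩
    obtain ⟨inst, v, hv⟩ := hr G hG hGI
    refine ⟨inst, v, fun Γ ε hε => (hv ε hε).mono ?_⟩
    rintro p ⟨t, hth, htz, htG, h0, hp⟩
    have hps : psum Finset.univ (1 : Fin r → Qbarˣ) (fun j a => t j * v j a) =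
        pt (RingHom.id Qbar) v t := by
      funext a
      unfold psum pt
      refine Finset.sum_congr rfl fun j _ => ?_
      rw [Pi.one_apply, Units.val_one, one_mul]
      rfl
    have hne : psum Finset.univ (1 : Fin r → Qbarˣ) (fun j a => t j * v j a) ≠ 0 := by
      rw [hps]
      exact h0
    refine ⟨1, t, fun j => ⟨1, one_pos, ?_⟩, hth, ⟨hne, fun i => ?_, ?_⟩, hne, ?_⟩
    · rw [pow_one]
      exact Subgroup.one_mem Γ
    · rw [hps]
      exact htz i
    · rw [hps]
      exact htG
    · rw [hp]
      exact mk_congr h0 hne hps.symm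

end Pool.Agent.Results.MP_7ede32_ag.NearFiniteRank
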