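import Mathlib
import Pool.Agent.Q58.SM.Conv

set_option autoImplicit false

/-!
# Uniform Bogomolov property of varieties that are not uniruled

Let `X` be an integral closed subvariety of projective `n`-space over a number field `k`, cut out by
forms of degree at most `d`.

(1) Suppose that `X` is not uniruled (for instance a variety of general type of positive dimension).
For every `r` there is a proper closed subset `Z = X ∩ {G = 0}` of `X`, defined over `k` and
depending only on `X` and `r`, such that over EVERY field extension `L` of `k` that contains the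
algebraic numbers (possibly transcendental), and for ALL vectors `v_1, …, v_r` over `L`, there are at
most `M(d, r)` points of `(X ∖ Z)(L)` of the form `t_1 v_1 + … + t_r v_r` with algebraic numbers
`t_j` such that `h(t_1 : … : t_r) < ε(d, r)`.  The positive number `ε(d, r)` and the number
`M(d, r)` are explicit and depend neither on `X`, `n`, `k` nor on `L` and the `v_j`.
In particular this holds for the points of this form over all number fields `K ⊇ k`, at once, and
for multipliers that are roots of unity or zero.

(2) If `X` is uniruled, then this fails for some `r`: for every proper closed subset `G = 0` there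
are algebraic vectors `v_1, …, v_r` such that for every `ε > 0` there are infinitely many such
points off `G = 0`.
-/

namespace Pool.Agent.Results.MP_7ede32_ag.SmallMultipliers

open MvPolynomial Pool.Agent.Helper259.AbsHt Pool.Agent.H533R3.SL Pool.Agent.Y215.SP

/-- the bound for the height of the multipliers -/
noncomputable def smallness (d r : ℕ) : ℝ := epsn ((d + 1) ^ r) / d

/-- the bound for the number of the points -/
noncomputable def number (d r : ℕ) : ℕ := 2 ^ r * M0 ((d + 1) ^ r) d r

theorem result (k : Type) [Field k] [NumberField k] (n N : ℕ)
    (P : Fin N → MvPolynomial (Fin (n + 1)) k) (d : ℕ) (hd : 1 ≤ d)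
    (hP : ∀ i, ∃ e, e ≤ d ∧ (P i).IsHomogeneous e)
    (hprime : (Ideal.span (Set.range P)).IsPrime) :
    (¬ Uniruled (Ideal.span (Set.range P)) → ∀ r : ℕ, 0 < smallness d r ∧
      ∃ G : MvPolynomial (Fin (n + 1)) k, (∃ e, G.IsHomogeneous e) ∧
        G ∉ Ideal.span (Set.range P) ∧
        ∀ (L : Type) [Field L] [Algebra k L] (ι : Qbar →+* L) (v : Fin r → Fin (n + 1) → L),
          (smallOff ι P G (smallness d r) v).encard ≤ number d r) ∧
    (Uniruled (Ideal.span (Set.range P)) →
      ∃ r : ℕ, ∀ G : MvPolynomial (Fin (n + 1)) k, (∃ e, G.IsHomogeneous e) →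
        G ∉ Ideal.span (Set.range P) →
        ∃ (_ : Algebra k Qbar) (v : Fin r → Fin (n + 1) → Qbar), ∀ ε : ℝ, 0 < ε →
          (smallOff (RingHom.id Qbar) P G ε v).Infinite) := by
  refine ⟨fun hnu r => ⟨?_, ?_⟩, fun hu => Pool.Agent.Q58.SM.converse k P hu⟩
  · unfold smallness
    have hd' : (0 : ℝ) < d := by exact_mod_cast hd
    exact div_pos (epsn_pos _ (Nat.one_le_pow _ _ (Nat.succ_pos d))) hd'
  · exact small_multipliers P d hd hP hprime hnu r

end Pool.Agent.Results.MP_7ede32_ag.SmallMultipliers
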