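import Pool.Agent.Q1.SL.Uni

set_option autoImplicit false

/-!
# The strong Lang conjecture for iterated recurrences, with uniform bounds

Let `X` be the integral closed subvariety of projective `n`-space over a number field `k` given by
the forms in `FF`.  We consider families of points `x(h)` of `X(L)`, where `L ⊇ k` is any field which
can be embedded in `ℂ` and `h` runs through an arbitrary group `H`, with homogeneous coordinates
given by iterated recurrences (`IterVec s r e x`): there are invertible matrices `X_1(h), ...,
X_s(h)` of size `r` such that, for all `g` in `H`, the entries of `X_l(g h) X_l(h)⁻¹` are, for all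
`h`, the values of polynomials (depending on `g`) of degree at most `e` in each variable at the
entries of `X_i(h)`, `X_i(h)⁻¹`, `i < l`, and the coordinates of `x(h)` are values of such
polynomials at the entries of all these matrices.  For `s = 1` these are the orbits of
representations of groups (and linear recurrence sequences); for `H = ℤ`, `s > 1` for example
`2 ^ (n ^ 2)`, `q`-factorials and continuants with partial denominators of this kind.

(1) If `X` is not uniruled (for instance of general type and of positive dimension), then for all
`s`, `r`, `e` there are ONE proper closed subset `X ∩ {G = 0}` of `X`, defined over `k`, and ONE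
number `B` such that for ALL fields `L`, all groups `H` and all families of this kind of points of
`X(L)`, at most `B` of the points of the family are outside of `G = 0`.

(2) If `X` is uniruled, this fails: for some `r` and for every form `G` which does not vanish on `X`
there are a number field `L ⊇ k` and a sequence of points of `X(L)`, indexed by the integers and
given by one step with matrices of size `r`, which has infinitely many points outside of `G = 0`.
-/

namespace Pool.Agent.Results.MP_7ede32_ag.UniformIteratedStrong

open MvPolynomial Pool.Agent.H533R3.SL Pool.Agent.Y377.ST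

theorem result (k : Type) [Field k] [NumberField k] (n : ℕ)
    (FF : Finset (MvPolynomial (Fin (n + 1)) k)) (hhom : ∀ F ∈ FF, ∃ e, F.IsHomogeneous e)
    (hprime : (Ideal.span (FF : Set (MvPolynomial (Fin (n + 1)) k))).IsPrime) :
    (¬ Uniruled (Ideal.span (FF : Set (MvPolynomial (Fin (n + 1)) k))) → ∀ s r e : ℕ,
      ∃ G : MvPolynomial (Fin (n + 1)) k, (∃ d, G.IsHomogeneous d) ∧
        G ∉ Ideal.span (FF : Set (MvPolynomial (Fin (n + 1)) k)) ∧
        ∃ B : ℕ, ∀ (L : Type) [Field L] [Algebra k L] (_ : L →+* ℂ) (H : Type) [Group H]
          (x : H → Fin (n + 1) → L), IterVec s r e x → (∀ h, ∀ F ∈ FF, aeval (x h) F = 0) →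
            (ptsOff G x).encard ≤ (B : ℕ∞)) ∧
    (Uniruled (Ideal.span (FF : Set (MvPolynomial (Fin (n + 1)) k))) → ∃ r : ℕ,
      ∀ G : MvPolynomial (Fin (n + 1)) k, (∃ d, G.IsHomogeneous d) →
        G ∉ Ideal.span (FF : Set (MvPolynomial (Fin (n + 1)) k)) →
        ∃ (L : Type) (_ : Field L) (_ : NumberField L) (_ : Algebra k L)
          (x : Multiplicative ℤ → Fin (n + 1) → L), IterVec 1 r 1 x ∧
          (∀ h, ∀ F ∈ FF, aeval (x h) F = 0) ∧ (ptsOff G x).Infinite) := by
  refine ⟨fun hnu s r e => ?_, (strong_iff FF hhom hprime).2⟩
  have : Countable k := (Module.finBasis ℚ k).equivFun.injective.countable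
  obtain ⟨G, h1, h2, B, h3⟩ := Pool.Agent.Q1.SL.strong_uniform
    (FF : Set (MvPolynomial (Fin (n + 1)) k)) hhom hprime hnu s r e
  exact ⟨G, h1, h2, B, fun L _ _ τ H _ x hx hX => h3 L τ H x hx hX⟩

end Pool.Agent.Results.MP_7ede32_ag.UniformIteratedStrong
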